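import Mathlib

/-!
# Airy polynomials as power series in `h`, `z = e^h`

`E n` is `e^{n h/2}`; `D = 2 d/dh`; `U n`, `V n` the two halves of the Airy polynomials;
ladder relations (L1), (L2).
-/

open PowerSeries Finset

namespace CDH

/-- `e^{n h / 2}` -/
noncomputable def E (n : ℤ) : PowerSeries ℂ := rescale ((n : ℂ) / 2) (PowerSeries.exp ℂ)

/-- `D = 2 d/dh` -/
noncomputable def D (F : PowerSeries ℂ) : PowerSeries ℂ := 2 * PowerSeries.derivative ℂ F

/-- `δ = z^{3/2} - z^{-3/2}` -/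
noncomputable def dl : PowerSeries ℂ := E 3 - E (-3)

/-- `α i = 1 / (9^i i! (2/3)_i)` -/
noncomputable def al (i : ℕ) : ℂ := ∏ j ∈ range i, (1 / (3 * ((j : ℂ) + 1) * (3 * ((j : ℂ) + 1) - 1)))

/-- `β j = 1 / (9^j j! (4/3)_j)` -/
noncomputable def be (i : ℕ) : ℂ := ∏ j ∈ range i, (1 / (3 * ((j : ℂ) + 1) * (3 * ((j : ℂ) + 1) + 1)))

/-- the half `u_n` -/
noncomputable def U (n : ℕ) : PowerSeries ℂ :=
  ∑ p ∈ antidiagonal n, PowerSeries.C (al p.1 * be p.2) * E (3 * ((p.2 : ℤ) - p.1) + 1)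

/-- the half `v_n` -/
noncomputable def V (n : ℕ) : PowerSeries ℂ :=
  -∑ p ∈ antidiagonal n, PowerSeries.C (al p.1 * be p.2) * E (-(3 * ((p.2 : ℤ) - p.1) + 1))

/-- the combination `c u_n + d v_n` -/
noncomputable def W (c d : ℂ) (n : ℕ) : PowerSeries ℂ := PowerSeries.C c * U n + PowerSeries.C d * V n

theorem C2 : PowerSeries.C (2 : ℂ) = 2 := map_ofNat (PowerSeries.C (R := ℂ)) 2
theorem C3 : PowerSeries.C (3 : ℂ) = 3 := map_ofNat (PowerSeries.C (R := ℂ)) 3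
theorem C4 : PowerSeries.C (4 : ℂ) = 4 := map_ofNat (PowerSeries.C (R := ℂ)) 4

theorem E_mul (m n : ℤ) : E m * E n = E (m + n) := by
  unfold E
  rw [PowerSeries.exp_mul_exp_eq_exp_add]
  congr 2
  push_cast
  ring

theorem E_zero : E 0 = 1 := by
  unfold E
  simp

theorem coeff_E (n : ℕ) (m : ℤ) : coeff n (E m) = ((m : ℂ) / 2) ^ n / n.factorial := by
  unfold E
  rw [coeff_rescale, PowerSeries.coeff_exp]
  simp [div_eq_mul_inv]

theorem D_add (F G : PowerSeries ℂ) : D (F + G) = D F + D G := by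
  unfold D; rw [map_add, mul_add]

theorem D_neg (F : PowerSeries ℂ) : D (-F) = -D F := by
  unfold D; rw [map_neg, mul_neg]

theorem D_sub (F G : PowerSeries ℂ) : D (F - G) = D F - D G := by
  unfold D; rw [map_sub, mul_sub]

theorem D_mul (F G : PowerSeries ℂ) : D (F * G) = D F * G + F * D G := by
  unfold D
  rw [Derivation.leibniz, smul_eq_mul, smul_eq_mul]
  ring

theorem D_C_mul (c : ℂ) (F : PowerSeries ℂ) : D (PowerSeries.C c * F) = PowerSeries.C c * D F := by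
  rw [D_mul]
  have h : D (PowerSeries.C c) = 0 := by unfold D; rw [PowerSeries.derivative_C, mul_zero]
  rw [h, zero_mul, zero_add]

theorem D_sum {ι : Type*} (s : Finset ι) (f : ι → PowerSeries ℂ) :
    D (∑ i ∈ s, f i) = ∑ i ∈ s, D (f i) := by
  unfold D
  rw [map_sum, mul_sum]

theorem coeff_D (n : ℕ) (F : PowerSeries ℂ) :
    coeff n (D F) = 2 * ((n : ℂ) + 1) * coeff (n + 1) F := by
  unfold D
  have h : (2 : PowerSeries ℂ) = PowerSeries.C 2 := (map_ofNat (PowerSeries.C (R := ℂ)) 2).symm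
  rw [h, PowerSeries.coeff_C_mul, PowerSeries.coeff_derivative]
  ring

theorem D_E (m : ℤ) : D (E m) = PowerSeries.C (m : ℂ) * E m := by
  ext n
  rw [coeff_D, coeff_E, PowerSeries.coeff_C_mul, coeff_E, Nat.factorial_succ, pow_succ]
  have h1 : ((n : ℂ) + 1) ≠ 0 := by exact_mod_cast Nat.succ_ne_zero n
  have h2 : ((n.factorial : ℕ) : ℂ) ≠ 0 := by exact_mod_cast Nat.factorial_ne_zero n
  push_cast
  field_simp

theorem al_succ (i : ℕ) :
    3 * ((i : ℂ) + 1) * (3 * ((i : ℂ) + 1) - 1) * al (i + 1) = al i := by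
  have h1 : ((i : ℂ) + 1) ≠ 0 := by exact_mod_cast Nat.succ_ne_zero i
  have h2 : (3 * ((i : ℂ) + 1) - 1) ≠ 0 := by
    have : (3 * ((i : ℂ) + 1) - 1) = ((3 * i + 2 : ℕ) : ℂ) := by push_cast; ring
    rw [this, Nat.cast_ne_zero]
    omega
  unfold al
  rw [prod_range_succ]
  field_simp

theorem be_succ (i : ℕ) :
    3 * ((i : ℂ) + 1) * (3 * ((i : ℂ) + 1) + 1) * be (i + 1) = be i := by
  have h1 : ((i : ℂ) + 1) ≠ 0 := by exact_mod_cast Nat.succ_ne_zero i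
  have h2 : (3 * ((i : ℂ) + 1) + 1) ≠ 0 := by
    have : (3 * ((i : ℂ) + 1) + 1) = ((3 * i + 4 : ℕ) : ℂ) := by push_cast; ring
    rw [this, Nat.cast_ne_zero]
    omega
  unfold be
  rw [prod_range_succ]
  field_simp

/-- splitting a sum over the antidiagonal of `n+1` -/
theorem split_left (n : ℕ) (f : ℕ → ℕ → PowerSeries ℂ) (h : ∀ j, f 0 j = 0) :
    ∑ p ∈ antidiagonal (n + 1), f p.1 p.2 = ∑ p ∈ antidiagonal n, f (p.1 + 1) p.2 := by
  rw [Finset.Nat.sum_antidiagonal_succ]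
  simp [h]

theorem split_right (n : ℕ) (f : ℕ → ℕ → PowerSeries ℂ) (h : ∀ j, f j 0 = 0) :
    ∑ p ∈ antidiagonal (n + 1), f p.1 p.2 = ∑ p ∈ antidiagonal n, f p.1 (p.2 + 1) := by
  rw [Finset.Nat.sum_antidiagonal_succ']
  simp [h]

/-- (L1) for `U` -/
theorem D_U (n : ℕ) : 3 * ((n : PowerSeries ℂ) + 1) * D (U (n + 1)) = dl * U n := by
  have hL : 3 * ((n : PowerSeries ℂ) + 1) * D (U (n + 1)) =
      ∑ p ∈ antidiagonal (n + 1), PowerSeries.C (al p.1 * (3 * (p.2 : ℂ) * (3 * (p.2 : ℂ) + 1) * be p.2)) *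
          E (3 * ((p.2 : ℤ) - p.1) + 1) -
      ∑ p ∈ antidiagonal (n + 1), PowerSeries.C (3 * (p.1 : ℂ) * (3 * (p.1 : ℂ) - 1) * al p.1 * be p.2) *
          E (3 * ((p.2 : ℤ) - p.1) + 1) := by
    unfold U
    rw [D_sum, mul_sum, ← sum_sub_distrib]
    refine sum_congr rfl fun p hp => ?_
    rw [HasAntidiagonal.mem_antidiagonal] at hp
    rw [D_C_mul, D_E, ← sub_mul, ← map_sub, ← mul_assoc (PowerSeries.C _), ← map_mul, ← mul_assoc]
    congr 1
    have h3 : 3 * ((n : PowerSeries ℂ) + 1) = PowerSeries.C (3 * ((n : ℂ) + 1)) := by simp [C3]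
    rw [h3, ← map_mul]
    congr 1
    have hn : (n : ℂ) + 1 = (p.1 : ℂ) + p.2 := by exact_mod_cast hp.symm
    rw [hn]
    push_cast
    ring
  rw [hL, split_right n (fun i j => PowerSeries.C (al i * (3 * (j : ℂ) * (3 * (j : ℂ) + 1) * be j)) *
          E (3 * ((j : ℤ) - i) + 1)) (by intro j; simp),
    split_left n (fun i j => PowerSeries.C (3 * (i : ℂ) * (3 * (i : ℂ) - 1) * al i * be j) *
          E (3 * ((j : ℤ) - i) + 1)) (by intro j; simp)]
  unfold U dl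
  rw [mul_sum, ← sum_sub_distrib]
  refine sum_congr rfl fun p _ => ?_
  have h1 := be_succ p.2
  have h2 := al_succ p.1
  push_cast
  rw [h1, h2, sub_mul, mul_left_comm (E 3), mul_left_comm (E (-3)), E_mul, E_mul]
  congr 3 <;> ring

/-- (L1) for `V` -/
theorem D_V (n : ℕ) : 3 * ((n : PowerSeries ℂ) + 1) * D (V (n + 1)) = dl * V n := by
  have hL : 3 * ((n : PowerSeries ℂ) + 1) * D (V (n + 1)) =
      ∑ p ∈ antidiagonal (n + 1), PowerSeries.C (al p.1 * (3 * (p.2 : ℂ) * (3 * (p.2 : ℂ) + 1) * be p.2)) *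
          E (-(3 * ((p.2 : ℤ) - p.1) + 1)) -
      ∑ p ∈ antidiagonal (n + 1), PowerSeries.C (3 * (p.1 : ℂ) * (3 * (p.1 : ℂ) - 1) * al p.1 * be p.2) *
          E (-(3 * ((p.2 : ℤ) - p.1) + 1)) := by
    unfold V
    rw [D_neg, D_sum, mul_neg, mul_sum, ← sum_sub_distrib, ← sum_neg_distrib]
    refine sum_congr rfl fun p hp => ?_
    rw [HasAntidiagonal.mem_antidiagonal] at hp
    rw [D_C_mul, D_E, ← sub_mul, ← map_sub, ← mul_assoc (PowerSeries.C _), ← map_mul, ← mul_assoc, ← neg_mul]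
    congr 1
    have h3 : 3 * ((n : PowerSeries ℂ) + 1) = PowerSeries.C (3 * ((n : ℂ) + 1)) := by simp [C3]
    rw [h3, ← map_mul, ← map_neg]
    congr 1
    have hn : (n : ℂ) + 1 = (p.1 : ℂ) + p.2 := by exact_mod_cast hp.symm
    rw [hn]
    push_cast
    ring
  rw [hL, split_right n (fun i j => PowerSeries.C (al i * (3 * (j : ℂ) * (3 * (j : ℂ) + 1) * be j)) *
          E (-(3 * ((j : ℤ) - i) + 1))) (by intro j; simp),
    split_left n (fun i j => PowerSeries.C (3 * (i : ℂ) * (3 * (i : ℂ) - 1) * al i * be j) *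
          E (-(3 * ((j : ℤ) - i) + 1))) (by intro j; simp)]
  unfold V dl
  rw [mul_neg, mul_sum, ← sum_sub_distrib, ← sum_neg_distrib]
  refine sum_congr rfl fun p _ => ?_
  have h1 := be_succ p.2
  have h2 := al_succ p.1
  push_cast
  rw [h1, h2, sub_mul, mul_left_comm (E 3), mul_left_comm (E (-3)), E_mul, E_mul, neg_sub]
  congr 3 <;> ring

/-- (L2) for `U` -/
theorem R_U (n : ℕ) : dl * D (U n) - (2 * (n : PowerSeries ℂ) + 1) * D dl * U n =
    -(3 * ((n : PowerSeries ℂ) + 1) * (3 * n + 2) * (3 * n + 4)) * U (n + 1) := by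
  have hR : -(3 * ((n : PowerSeries ℂ) + 1) * (3 * n + 2) * (3 * n + 4)) * U (n + 1) =
      ∑ p ∈ antidiagonal (n + 1), PowerSeries.C (-(al p.1 * (3 * (p.2 : ℂ) * (3 * (p.2 : ℂ) + 1) * be p.2)) *
          (3 * (n : ℂ) + 6 * p.1 + 2)) *
          E (3 * ((p.2 : ℤ) - p.1) + 1) -
      ∑ p ∈ antidiagonal (n + 1), PowerSeries.C ((3 * (p.1 : ℂ) * (3 * (p.1 : ℂ) - 1) * al p.1 * be p.2) *
          (9 * (n : ℂ) - 6 * p.1 + 10)) *
          E (3 * ((p.2 : ℤ) - p.1) + 1) := by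
    unfold U
    rw [mul_sum, ← sum_sub_distrib]
    refine sum_congr rfl fun p hp => ?_
    rw [HasAntidiagonal.mem_antidiagonal] at hp
    rw [← sub_mul, ← map_sub, ← mul_assoc]
    congr 1
    have h3 : -(3 * ((n : PowerSeries ℂ) + 1) * (3 * n + 2) * (3 * n + 4)) =
        PowerSeries.C (-(3 * ((n : ℂ) + 1) * (3 * n + 2) * (3 * n + 4))) := by simp [C2, C3, C4]
    rw [h3, ← map_mul]
    congr 1
    have hn : (p.2 : ℂ) = (n : ℂ) + 1 - p.1 := by
      have : (p.1 : ℂ) + p.2 = n + 1 := by exact_mod_cast hp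
      rw [← this]; ring
    rw [hn]
    ring
  rw [hR, split_right n (fun i j => PowerSeries.C (-(al i * (3 * (j : ℂ) * (3 * (j : ℂ) + 1) * be j)) *
          (3 * (n : ℂ) + 6 * i + 2)) * E (3 * ((j : ℤ) - i) + 1)) (by intro j; simp),
    split_left n (fun i j => PowerSeries.C ((3 * (i : ℂ) * (3 * (i : ℂ) - 1) * al i * be j) *
          (9 * (n : ℂ) - 6 * i + 10)) * E (3 * ((j : ℤ) - i) + 1)) (by intro j; simp)]
  unfold U dl
  rw [D_sum, mul_sum, mul_sum, ← sum_sub_distrib, ← sum_sub_distrib]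
  refine sum_congr rfl fun p hp => ?_
  rw [HasAntidiagonal.mem_antidiagonal] at hp
  have h1 := be_succ p.2
  have h2 := al_succ p.1
  have hn : (n : ℂ) = (p.1 : ℂ) + p.2 := by exact_mod_cast hp.symm
  rw [D_C_mul, D_E, D_sub, D_E, D_E]
  push_cast
  rw [h1, h2]
  have e1 : E (3 * ((p.2 : ℤ) + 1 - p.1) + 1) = E 3 * E (3 * ((p.2 : ℤ) - p.1) + 1) := by
    rw [E_mul]; congr 1; ring
  have e2 : E (3 * ((p.2 : ℤ) - (p.1 + 1)) + 1) = E (-3) * E (3 * ((p.2 : ℤ) - p.1) + 1) := by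
    rw [E_mul]; congr 1; ring
  rw [e1, e2]
  have h3 : (2 * (n : PowerSeries ℂ) + 1) = PowerSeries.C (2 * (n : ℂ) + 1) := by simp [C2]
  rw [h3, hn]
  simp only [map_add, map_sub, map_mul, map_neg, map_one, map_ofNat]
  ring

/-- (L2) for `V` -/
theorem R_V (n : ℕ) : dl * D (V n) - (2 * (n : PowerSeries ℂ) + 1) * D dl * V n =
    -(3 * ((n : PowerSeries ℂ) + 1) * (3 * n + 2) * (3 * n + 4)) * V (n + 1) := by
  have hR : -(3 * ((n : PowerSeries ℂ) + 1) * (3 * n + 2) * (3 * n + 4)) * V (n + 1) =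
      -(∑ p ∈ antidiagonal (n + 1), PowerSeries.C (-(al p.1 * (3 * (p.2 : ℂ) * (3 * (p.2 : ℂ) + 1) * be p.2)) *
          (3 * (n : ℂ) + 6 * p.1 + 2)) *
          E (-(3 * ((p.2 : ℤ) - p.1) + 1)) -
      ∑ p ∈ antidiagonal (n + 1), PowerSeries.C ((3 * (p.1 : ℂ) * (3 * (p.1 : ℂ) - 1) * al p.1 * be p.2) *
          (9 * (n : ℂ) - 6 * p.1 + 10)) *
          E (-(3 * ((p.2 : ℤ) - p.1) + 1))) := by
    unfold V
    rw [mul_neg, mul_sum, ← sum_sub_distrib]
    congr 1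
    refine sum_congr rfl fun p hp => ?_
    rw [HasAntidiagonal.mem_antidiagonal] at hp
    rw [← sub_mul, ← map_sub, ← mul_assoc]
    congr 1
    have h3 : -(3 * ((n : PowerSeries ℂ) + 1) * (3 * n + 2) * (3 * n + 4)) =
        PowerSeries.C (-(3 * ((n : ℂ) + 1) * (3 * n + 2) * (3 * n + 4))) := by simp [C2, C3, C4]
    rw [h3, ← map_mul]
    congr 1
    have hn : (p.2 : ℂ) = (n : ℂ) + 1 - p.1 := by
      have : (p.1 : ℂ) + p.2 = n + 1 := by exact_mod_cast hp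
      rw [← this]; ring
    rw [hn]
    ring
  rw [hR, split_right n (fun i j => PowerSeries.C (-(al i * (3 * (j : ℂ) * (3 * (j : ℂ) + 1) * be j)) *
          (3 * (n : ℂ) + 6 * i + 2)) * E (-(3 * ((j : ℤ) - i) + 1))) (by intro j; simp),
    split_left n (fun i j => PowerSeries.C ((3 * (i : ℂ) * (3 * (i : ℂ) - 1) * al i * be j) *
          (9 * (n : ℂ) - 6 * i + 10)) * E (-(3 * ((j : ℤ) - i) + 1))) (by intro j; simp)]
  unfold V dl
  rw [D_neg, mul_neg, mul_neg, sub_neg_eq_add, D_sum, mul_sum, mul_sum, ← sum_neg_distrib, ← sum_add_distrib,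
    ← sum_sub_distrib, ← sum_neg_distrib]
  refine sum_congr rfl fun p hp => ?_
  rw [HasAntidiagonal.mem_antidiagonal] at hp
  have h1 := be_succ p.2
  have h2 := al_succ p.1
  have hn : (n : ℂ) = (p.1 : ℂ) + p.2 := by exact_mod_cast hp.symm
  rw [D_C_mul, D_E, D_sub, D_E, D_E]
  push_cast
  rw [h1, h2]
  have e1 : E (-(3 * ((p.2 : ℤ) + 1 - p.1) + 1)) = E (-3) * E (-(3 * ((p.2 : ℤ) - p.1) + 1)) := by
    rw [E_mul]; congr 1; ring
  have e2 : E (-(3 * ((p.2 : ℤ) - (p.1 + 1)) + 1)) = E 3 * E (-(3 * ((p.2 : ℤ) - p.1) + 1)) := by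
    rw [E_mul]; congr 1; ring
  rw [e1, e2]
  have h3 : (2 * (n : PowerSeries ℂ) + 1) = PowerSeries.C (2 * (n : ℂ) + 1) := by simp [C2]
  rw [h3, hn]
  simp only [map_add, map_sub, map_mul, map_neg, map_one, map_ofNat]
  ring

theorem D_W (c d : ℂ) (n : ℕ) : 3 * ((n : PowerSeries ℂ) + 1) * D (W c d (n + 1)) = dl * W c d n := by
  unfold W
  rw [D_add, D_C_mul, D_C_mul]
  linear_combination PowerSeries.C c * D_U n + PowerSeries.C d * D_V n

theorem R_W (c d : ℂ) (n : ℕ) : dl * D (W c d n) - (2 * (n : PowerSeries ℂ) + 1) * D dl * W c d n =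
    -(3 * ((n : PowerSeries ℂ) + 1) * (3 * n + 2) * (3 * n + 4)) * W c d (n + 1) := by
  unfold W
  rw [D_add, D_C_mul, D_C_mul]
  linear_combination PowerSeries.C c * R_U n + PowerSeries.C d * R_V n

end CDH
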