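import Mathlib
import Pool.Agent.Lib.MP_216314_pr_CDH.Air

/-!
# The formal residue and the Polya urn recursion
-/

open PowerSeries Finset

namespace CDH

/-- `δ / h` -/
noncomputable def dl1 : PowerSeries ℂ := PowerSeries.mk fun n => coeff (n + 1) dl

/-- its inverse -/
noncomputable def di : PowerSeries ℂ := dl1⁻¹

/-- `rs N F = Res_{h=0} F δ^{-(N+1)} dh` -/
noncomputable def rs (N : ℕ) (F : PowerSeries ℂ) : ℂ := coeff N (F * di ^ (N + 1))

/-- `e^{i π / 3}` -/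
noncomputable def th : ℂ := Complex.exp (Real.pi / 3 * Complex.I)

noncomputable def Aw (n : ℕ) : PowerSeries ℂ := W th th⁻¹ n
noncomputable def Bw (n : ℕ) : PowerSeries ℂ := W 1 1 n
noncomputable def Cw (n : ℕ) : PowerSeries ℂ := W (th ^ 2) ((th ^ 2)⁻¹) n

/-- `J(k,m) = Res A_k B_m C_L δ^{-2L} dh`, `L = k+m+1` -/
noncomputable def J (k m : ℕ) : ℂ := rs (2 * (k + m) + 1) (Aw k * Bw m * Cw (k + m + 1))

theorem X_mul_dl1 : X * dl1 = dl := by
  ext n
  rcases n with _ | n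
  · rw [coeff_zero_X_mul]
    unfold dl
    rw [map_sub, coeff_E, coeff_E]
    simp
  · rw [coeff_succ_X_mul]
    unfold dl1
    rw [coeff_mk]

theorem const_dl1 : constantCoeff dl1 = 3 := by
  unfold dl1
  rw [← coeff_zero_eq_constantCoeff_apply, coeff_mk]
  unfold dl
  rw [map_sub, coeff_E, coeff_E]
  push_cast
  norm_num

theorem dl1_mul_di : dl1 * di = 1 := by
  unfold di
  apply PowerSeries.mul_inv_cancel
  rw [const_dl1]
  norm_num

theorem rs_add (N : ℕ) (F G : PowerSeries ℂ) : rs N (F + G) = rs N F + rs N G := by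
  unfold rs; rw [add_mul, map_add]

theorem rs_sub (N : ℕ) (F G : PowerSeries ℂ) : rs N (F - G) = rs N F - rs N G := by
  unfold rs; rw [sub_mul, map_sub]

theorem rs_C (N : ℕ) (c : ℂ) (F : PowerSeries ℂ) : rs N (PowerSeries.C c * F) = c * rs N F := by
  unfold rs; rw [mul_assoc, PowerSeries.coeff_C_mul]

theorem rs_dl (N : ℕ) (F : PowerSeries ℂ) : rs (N + 1) (F * dl) = rs N F := by
  unfold rs
  have h : F * dl * di ^ (N + 1 + 1) = X * (F * di ^ (N + 1)) := by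
    rw [← X_mul_dl1, pow_succ di (N + 1)]
    linear_combination (F * X * di ^ (N + 1)) * dl1_mul_di
  rw [h, coeff_succ_X_mul]

theorem D_pow (F : PowerSeries ℂ) (n : ℕ) : D (F ^ (n + 1)) = ((n : PowerSeries ℂ) + 1) * F ^ n * D F := by
  induction n with
  | zero => simp
  | succ n ih =>
    rw [pow_succ, D_mul, ih]
    push_cast
    ring

theorem D_X : D (X : PowerSeries ℂ) = 2 := by
  unfold D; rw [PowerSeries.derivative_X, mul_one]

theorem D_di : D di = -(di ^ 2 * D dl1) := by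
  have h := congrArg D dl1_mul_di
  have h1 : D (1 : PowerSeries ℂ) = 0 := by unfold D; rw [PowerSeries.derivative_one, mul_zero]
  rw [D_mul, h1] at h
  linear_combination di * h - D di * dl1_mul_di

/-- integration by parts -/
theorem rs_ibp (N : ℕ) (F : PowerSeries ℂ) : rs N (D F) = ((N : ℂ) + 1) * rs (N + 1) (F * D dl) := by
  have hD : D dl = 2 * dl1 + X * D dl1 := by
    rw [← X_mul_dl1, D_mul, D_X]
  have hG : D (F * di ^ (N + 1)) = D F * di ^ (N + 1) -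
      PowerSeries.C ((N : ℂ) + 1) * (F * di ^ (N + 2) * D dl1) := by
    rw [D_mul, D_pow, D_di]
    simp only [map_add, map_natCast, map_one]
    ring
  have h1 := coeff_D N (F * di ^ (N + 1))
  rw [hG, map_sub, PowerSeries.coeff_C_mul] at h1
  have h2 : F * D dl * di ^ (N + 1 + 1) = PowerSeries.C 2 * (F * di ^ (N + 1)) + X * (F * di ^ (N + 2) * D dl1) := by
    rw [hD, C2]
    linear_combination (2 * F * di ^ (N + 1)) * dl1_mul_di
  unfold rs
  rw [h2, map_add, PowerSeries.coeff_C_mul, coeff_succ_X_mul]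
  linear_combination h1

/-- `B_n` vanishes to order `2n+1` -/
theorem X_dvd_B (n : ℕ) : X ^ (2 * n + 1) ∣ Bw n := by
  have h0 : ∀ n, coeff 0 (Bw n) = 0 := by
    intro n
    unfold Bw W U V
    simp only [map_one, one_mul, map_add, map_neg, map_sum, PowerSeries.coeff_C_mul, coeff_E]
    simp
  induction n with
  | zero =>
    rw [mul_zero, zero_add, pow_one, PowerSeries.X_dvd_iff, ← coeff_zero_eq_constantCoeff_apply]
    exact h0 0
  | succ n ih =>
    rw [PowerSeries.X_pow_dvd_iff]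
    intro m hm
    rcases m with _ | j
    · exact h0 _
    · have h1 : X ^ (2 * n + 2) ∣ dl * Bw n := by
        rw [← X_mul_dl1]
        have := mul_dvd_mul (dvd_mul_right X dl1) ih
        rwa [← pow_succ'] at this
      have h2 := D_W 1 1 n
      rw [show W 1 1 n = Bw n from rfl] at h2
      rw [← h2] at h1
      have h3 : coeff j (3 * ((n : PowerSeries ℂ) + 1) * D (W 1 1 (n + 1))) = 0 :=
        (PowerSeries.X_pow_dvd_iff.1 h1) j (by omega)
      have h4 : 3 * ((n : PowerSeries ℂ) + 1) = PowerSeries.C (3 * ((n : ℂ) + 1)) := by simp [C3]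
      rw [h4, PowerSeries.coeff_C_mul, coeff_D] at h3
      have h5 : (3 * ((n : ℂ) + 1)) ≠ 0 :=
        mul_ne_zero (by norm_num) (by exact_mod_cast Nat.succ_ne_zero n)
      have h6 : (2 * ((j : ℂ) + 1)) ≠ 0 :=
        mul_ne_zero (by norm_num) (by exact_mod_cast Nat.succ_ne_zero j)
      rcases mul_eq_zero.1 h3 with h | h
      · exact absurd h h5
      · rcases mul_eq_zero.1 h with h | h
        · exact absurd h h6
        · exact h

theorem rs_zero (N : ℕ) (F : PowerSeries ℂ) (h : X ^ (N + 1) ∣ F) : rs N F = 0 := by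
  unfold rs
  have h1 : X ^ (N + 1) ∣ F * di ^ (N + 1) := dvd_mul_of_dvd_left h _
  exact (PowerSeries.X_pow_dvd_iff.1 h1) N (by omega)

/-- the general step of the recursion -/
theorem J_step (k m : ℕ) : 3 * (((k + m : ℕ) : ℂ) + 1) * (3 * ((k + m : ℕ) : ℂ) + 2) * (3 * ((k + m : ℕ) : ℂ) + 4) * J k m =
    rs (2 * (k + m)) (D (Aw k * Bw m) * Cw (k + m)) := by
  set n := k + m with hn
  have h1 := R_W (th ^ 2) ((th ^ 2)⁻¹) n
  rw [show W (th ^ 2) ((th ^ 2)⁻¹) n = Cw n from rfl,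
    show W (th ^ 2) ((th ^ 2)⁻¹) (n + 1) = Cw (n + 1) from rfl] at h1
  have h2 := rs_ibp (2 * n) (Aw k * Bw m * Cw n)
  rw [D_mul (Aw k * Bw m), rs_add] at h2
  have h3 : PowerSeries.C (-(3 * ((n : ℂ) + 1) * (3 * (n : ℂ) + 2) * (3 * (n : ℂ) + 4))) *
      (Aw k * Bw m * Cw (n + 1)) = (Aw k * Bw m * D (Cw n)) * dl -
      PowerSeries.C (2 * (n : ℂ) + 1) * (Aw k * Bw m * Cw n * D dl) := by
    simp only [map_neg, map_mul, map_add, map_natCast, map_one, C2, C3, C4]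
    linear_combination (-(Aw k * Bw m)) * h1
  have h4 := congrArg (rs (2 * n + 1)) h3
  rw [rs_C, rs_sub, rs_dl, rs_C] at h4
  unfold J
  rw [← hn]
  push_cast at h2
  linear_combination -h4 - h2

theorem ne3 (n : ℕ) : (3 * ((n : ℂ) + 1)) ≠ 0 :=
  mul_ne_zero (by norm_num) (by exact_mod_cast Nat.succ_ne_zero n)

theorem D_W' (c d : ℂ) (n : ℕ) : PowerSeries.C (3 * ((n : ℂ) + 1)) * D (W c d (n + 1)) = dl * W c d n := by
  have h4 : PowerSeries.C (3 * ((n : ℂ) + 1)) = 3 * ((n : PowerSeries ℂ) + 1) := by simp [C3]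
  rw [h4]
  exact D_W c d n

/-- recursion in the bulk -/
theorem J_rec (k m : ℕ) : 3 * ((k : ℂ) + m + 3) * (3 * ((k : ℂ) + m) + 8) * (3 * ((k : ℂ) + m) + 10) * J (k + 1) (m + 1) =
    J k (m + 1) / (3 * ((k : ℂ) + 1)) + J (k + 1) m / (3 * ((m : ℂ) + 1)) := by
  have h := J_step (k + 1) (m + 1)
  have h1 := D_W' th th⁻¹ k
  have h2 := D_W' 1 1 m
  have e1 : PowerSeries.C (3 * ((k : ℂ) + 1)) * D (Aw (k + 1)) = dl * Aw k := h1
  have e2 : PowerSeries.C (3 * ((m : ℂ) + 1)) * D (Bw (m + 1)) = dl * Bw m := h2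
  have e3 : PowerSeries.C (3 * ((k : ℂ) + 1)) * (D (Aw (k + 1)) * Bw (m + 1) * Cw (k + 1 + (m + 1))) =
      (Aw k * Bw (m + 1) * Cw (k + (m + 1) + 1)) * dl := by
    rw [show k + 1 + (m + 1) = k + (m + 1) + 1 by ring]
    linear_combination (Bw (m + 1) * Cw (k + (m + 1) + 1)) * e1
  have e4 : PowerSeries.C (3 * ((m : ℂ) + 1)) * (Aw (k + 1) * D (Bw (m + 1)) * Cw (k + 1 + (m + 1))) =
      (Aw (k + 1) * Bw m * Cw (k + 1 + m + 1)) * dl := by
    rw [show k + 1 + (m + 1) = k + 1 + m + 1 by ring]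
    linear_combination (Aw (k + 1) * Cw (k + 1 + m + 1)) * e2
  have f3 := congrArg (rs (2 * (k + 1 + (m + 1)))) e3
  have f4 := congrArg (rs (2 * (k + 1 + (m + 1)))) e4
  rw [rs_C] at f3 f4
  have g3 : rs (2 * (k + 1 + (m + 1))) (Aw k * Bw (m + 1) * Cw (k + (m + 1) + 1) * dl) = J k (m + 1) := by
    unfold J
    rw [show 2 * (k + 1 + (m + 1)) = 2 * (k + (m + 1)) + 1 + 1 by ring, rs_dl]
  have g4 : rs (2 * (k + 1 + (m + 1))) (Aw (k + 1) * Bw m * Cw (k + 1 + m + 1) * dl) = J (k + 1) m := by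
    unfold J
    rw [show 2 * (k + 1 + (m + 1)) = 2 * (k + 1 + m) + 1 + 1 by ring, rs_dl]
  rw [g3] at f3
  rw [g4] at f4
  rw [D_mul, add_mul, rs_add] at h
  have hk := ne3 k
  have hm := ne3 m
  rw [← f3, ← f4, mul_div_cancel_left₀ _ hk, mul_div_cancel_left₀ _ hm, ← h]
  push_cast
  ring

/-- recursion at `k = 0` -/
theorem J_left (m : ℕ) : 3 * ((m : ℂ) + 2) * (3 * (m : ℂ) + 5) * (3 * (m : ℂ) + 7) * J 0 (m + 1) =
    J 0 m / (3 * ((m : ℂ) + 1)) := by
  have h := J_step 0 (m + 1)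
  have e2 : PowerSeries.C (3 * ((m : ℂ) + 1)) * D (Bw (m + 1)) = dl * Bw m := D_W' 1 1 m
  have e4 : PowerSeries.C (3 * ((m : ℂ) + 1)) * (Aw 0 * D (Bw (m + 1)) * Cw (0 + (m + 1))) =
      (Aw 0 * Bw m * Cw (0 + m + 1)) * dl := by
    rw [show 0 + (m + 1) = 0 + m + 1 by ring]
    linear_combination (Aw 0 * Cw (0 + m + 1)) * e2
  have f4 := congrArg (rs (2 * (0 + (m + 1)))) e4
  rw [rs_C] at f4
  have g4 : rs (2 * (0 + (m + 1))) (Aw 0 * Bw m * Cw (0 + m + 1) * dl) = J 0 m := by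
    unfold J
    rw [show 2 * (0 + (m + 1)) = 2 * (0 + m) + 1 + 1 by ring, rs_dl]
  rw [g4] at f4
  have g3 : rs (2 * (0 + (m + 1))) (D (Aw 0) * Bw (m + 1) * Cw (0 + (m + 1))) = 0 := by
    apply rs_zero
    rw [show 2 * (0 + (m + 1)) + 1 = 2 * (m + 1) + 1 by ring]
    exact dvd_mul_of_dvd_left (dvd_mul_of_dvd_right (X_dvd_B (m + 1)) _) _
  rw [D_mul, add_mul, rs_add, g3] at h
  have hm := ne3 m
  rw [← f4, mul_div_cancel_left₀ _ hm]
  have hc : (((0 + (m + 1) : ℕ)) : ℂ) = (m : ℂ) + 1 := by push_cast; ring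
  rw [hc] at h
  linear_combination h

/-- the boundary term -/
noncomputable def I (k : ℕ) : ℂ := rs (2 * k) (Aw k * Cw k * D (Bw 0))

/-- recursion at `m = 0` -/
theorem J_right (k : ℕ) : 3 * ((k : ℂ) + 2) * (3 * (k : ℂ) + 5) * (3 * (k : ℂ) + 7) * J (k + 1) 0 =
    J k 0 / (3 * ((k : ℂ) + 1)) + I (k + 1) := by
  have h := J_step (k + 1) 0
  have e1 : PowerSeries.C (3 * ((k : ℂ) + 1)) * D (Aw (k + 1)) = dl * Aw k := D_W' th th⁻¹ k
  have e3 : PowerSeries.C (3 * ((k : ℂ) + 1)) * (D (Aw (k + 1)) * Bw 0 * Cw (k + 1 + 0)) =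
      (Aw k * Bw 0 * Cw (k + 0 + 1)) * dl := by
    rw [show k + 1 + 0 = k + 0 + 1 by ring]
    linear_combination (Bw 0 * Cw (k + 0 + 1)) * e1
  have f3 := congrArg (rs (2 * (k + 1 + 0))) e3
  rw [rs_C] at f3
  have g3 : rs (2 * (k + 1 + 0)) (Aw k * Bw 0 * Cw (k + 0 + 1) * dl) = J k 0 := by
    unfold J
    rw [show 2 * (k + 1 + 0) = 2 * (k + 0) + 1 + 1 by ring, rs_dl]
  rw [g3] at f3
  have g4 : rs (2 * (k + 1 + 0)) (Aw (k + 1) * D (Bw 0) * Cw (k + 1 + 0)) = I (k + 1) := by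
    unfold I
    rw [show k + 1 + 0 = k + 1 by ring]
    congr 1
    ring
  rw [D_mul, add_mul, rs_add, g4] at h
  have hk := ne3 k
  rw [← f3, mul_div_cancel_left₀ _ hk, ← h]
  push_cast
  ring

/-- corner -/
theorem J_zero : 24 * J 0 0 = I 0 := by
  have h := J_step 0 0
  have g3 : rs (2 * (0 + 0)) (D (Aw 0) * Bw 0 * Cw (0 + 0)) = 0 := by
    apply rs_zero
    exact dvd_mul_of_dvd_left (dvd_mul_of_dvd_right (X_dvd_B 0) _) _
  have g4 : rs (2 * (0 + 0)) (Aw 0 * D (Bw 0) * Cw (0 + 0)) = I 0 := by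
    unfold I
    simp only [add_zero, mul_zero]
    congr 1
    ring
  rw [D_mul, add_mul, rs_add, g3, g4] at h
  have hc : (((0 + 0 : ℕ)) : ℂ) = 0 := by simp
  rw [hc] at h
  linear_combination h

end CDH
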