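import Mathlib
import Pool.Agent.Lib.MP_216314_pr_CDH.Res

/-!
# The boundary term `I k = -2 (be k)^2`
-/

open PowerSeries Finset

namespace CDH

/-- `(e^h - 1)/h` -/
noncomputable def ze : PowerSeries ℂ := PowerSeries.mk fun n => coeff (n + 1) (E 2 - 1)

noncomputable def zi : PowerSeries ℂ := ze⁻¹

noncomputable def rz (n : ℕ) (j : ℕ) : ℂ := coeff n (E (2 * (j : ℤ)) * zi ^ (n + 1))

theorem X_mul_ze : X * ze = E 2 - 1 := by
  ext n
  rcases n with _ | n
  · rw [coeff_zero_X_mul, map_sub, coeff_E]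
    simp
  · rw [coeff_succ_X_mul]
    unfold ze
    rw [coeff_mk]

theorem const_ze : constantCoeff ze = 1 := by
  unfold ze
  rw [← coeff_zero_eq_constantCoeff_apply, coeff_mk, map_sub, coeff_E]
  simp [coeff_one]

theorem ze_mul_zi : ze * zi = 1 := by
  unfold zi
  apply PowerSeries.mul_inv_cancel
  rw [const_ze]
  norm_num

theorem const_zi : constantCoeff zi = 1 := by
  have h := congrArg constantCoeff ze_mul_zi
  rw [map_mul, const_ze, one_mul, map_one] at h
  exact h

theorem const_E (m : ℤ) : constantCoeff (E m) = 1 := by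
  rw [← coeff_zero_eq_constantCoeff_apply, coeff_E]
  simp

theorem D_zi : D zi = -(zi ^ 2 * D ze) := by
  have h := congrArg D ze_mul_zi
  have h1 : D (1 : PowerSeries ℂ) = 0 := by unfold D; rw [PowerSeries.derivative_one, mul_zero]
  rw [D_mul, h1] at h
  linear_combination zi * h - D zi * ze_mul_zi

theorem rz_ibp (N j : ℕ) : ((N : ℂ) + 1) * rz (N + 1) (j + 1) = (j : ℂ) * rz N j := by
  have hD : 2 * E 2 = 2 * ze + X * D ze := by
    have h1 : D (E 2 - 1) = 2 * E 2 := by
      have h0 : D (1 : PowerSeries ℂ) = 0 := by unfold D; rw [PowerSeries.derivative_one, mul_zero]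
      rw [D_sub, D_E, h0, sub_zero]
      push_cast
      rw [C2]
    rw [← h1, ← X_mul_ze, D_mul, D_X]
  have hG : D (E (2 * (j : ℤ)) * zi ^ (N + 1)) = PowerSeries.C (2 * (j : ℂ)) * (E (2 * (j : ℤ)) * zi ^ (N + 1)) -
      PowerSeries.C ((N : ℂ) + 1) * (E (2 * (j : ℤ)) * zi ^ (N + 2) * D ze) := by
    rw [D_mul, D_pow, D_zi, D_E]
    push_cast
    simp only [map_add, map_natCast, map_one, map_mul]
    ring
  have h1 := coeff_D N (E (2 * (j : ℤ)) * zi ^ (N + 1))
  rw [hG, map_sub, PowerSeries.coeff_C_mul, PowerSeries.coeff_C_mul] at h1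
  have h2 : PowerSeries.C 2 * (E (2 * ((j + 1 : ℕ) : ℤ)) * zi ^ (N + 1 + 1)) =
      PowerSeries.C 2 * (E (2 * (j : ℤ)) * zi ^ (N + 1)) + X * (E (2 * (j : ℤ)) * zi ^ (N + 2) * D ze) := by
    have e : E (2 * ((j + 1 : ℕ) : ℤ)) = E (2 * (j : ℤ)) * E 2 := by
      rw [E_mul]; exact congrArg E (by push_cast; ring)
    rw [e, C2]
    linear_combination (E (2 * (j : ℤ)) * zi ^ (N + 2)) * hD + (2 * E (2 * (j : ℤ)) * zi ^ (N + 1)) * ze_mul_zi
  have h3 := congrArg (coeff (N + 1)) h2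
  rw [map_add, PowerSeries.coeff_C_mul, PowerSeries.coeff_C_mul, coeff_succ_X_mul] at h3
  unfold rz
  have h4 : (2 : ℂ) ≠ 0 := by norm_num
  apply mul_left_cancel₀ h4
  linear_combination ((N : ℂ) + 1) * h3 - h1

theorem rz_diff (N j : ℕ) : rz (N + 1) (j + 1) - rz (N + 1) j = rz N j := by
  have h : E (2 * ((j + 1 : ℕ) : ℤ)) * zi ^ (N + 1 + 1) - E (2 * (j : ℤ)) * zi ^ (N + 1 + 1) =
      X * (E (2 * (j : ℤ)) * zi ^ (N + 1)) := by
    have e : E (2 * ((j + 1 : ℕ) : ℤ)) = E (2 * (j : ℤ)) * E 2 := by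
      rw [E_mul]; exact congrArg E (by push_cast; ring)
    rw [e]
    linear_combination (-(E (2 * (j : ℤ)) * zi ^ (N + 2))) * X_mul_ze +
      (X * E (2 * (j : ℤ)) * zi ^ (N + 1)) * ze_mul_zi
  have h1 := congrArg (coeff (N + 1)) h
  rw [map_sub, coeff_succ_X_mul] at h1
  exact h1

theorem rz_top (n : ℕ) : rz n (n + 1) = 1 := by
  induction n with
  | zero =>
    unfold rz
    rw [zero_add, pow_one, coeff_zero_eq_constantCoeff_apply, map_mul, const_E, const_zi, one_mul]
  | succ n ih =>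
    have h := rz_ibp n (n + 1)
    rw [ih, mul_one] at h
    have h2 : ((n : ℂ) + 1) ≠ 0 := by exact_mod_cast Nat.succ_ne_zero n
    apply mul_left_cancel₀ h2
    rw [h]
    push_cast
    ring

theorem rz_mid (n j : ℕ) (h1 : 1 ≤ j) (h2 : j ≤ n) : rz n j = 0 := by
  induction n generalizing j with
  | zero => omega
  | succ n ih =>
    obtain ⟨i, rfl⟩ : ∃ i, j = i + 1 := ⟨j - 1, by omega⟩
    have h := rz_ibp n i
    have h3 : ((n : ℂ) + 1) ≠ 0 := by exact_mod_cast Nat.succ_ne_zero n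
    rcases Nat.eq_zero_or_pos i with h0 | h0
    · subst h0
      rw [Nat.cast_zero, zero_mul] at h
      exact (mul_eq_zero.1 h).resolve_left h3
    · rw [ih i h0 (by omega), mul_zero] at h
      exact (mul_eq_zero.1 h).resolve_left h3

theorem rz_bot (n : ℕ) : rz n 0 = (-1) ^ n := by
  induction n with
  | zero =>
    unfold rz
    rw [zero_add, pow_one, coeff_zero_eq_constantCoeff_apply, map_mul, const_E, const_zi, one_mul, pow_zero]
  | succ n ih =>
    have h := rz_diff n 0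
    rw [rz_mid (n + 1) (0 + 1) (by omega) (by omega), ih] at h
    rw [pow_succ]
    linear_combination -h

/-- evaluation of polynomials at `z = e^h` -/
noncomputable def ev : Polynomial ℂ →ₐ[ℂ] PowerSeries ℂ := Polynomial.aeval (E 2)

theorem E2_pow (j : ℕ) : E 2 ^ j = E (2 * (j : ℤ)) := by
  induction j with
  | zero => simp [E_zero]
  | succ j ih => rw [pow_succ, ih, E_mul]; exact congrArg E (by push_cast; ring)

theorem ev_X_pow (j : ℕ) : ev (Polynomial.X ^ j) = E (2 * (j : ℤ)) := by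
  unfold ev
  rw [map_pow, Polynomial.aeval_X, E2_pow]

theorem ev_C (c : ℂ) : ev (Polynomial.C c) = PowerSeries.C c := by
  unfold ev
  rw [Polynomial.aeval_C]
  rfl

theorem ev_sum (p : Polynomial ℂ) (M : ℕ) (h : p.natDegree < M) :
    ev p = ∑ j ∈ range M, PowerSeries.C (p.coeff j) * E (2 * (j : ℤ)) := by
  unfold ev
  rw [Polynomial.aeval_eq_sum_range' h]
  refine sum_congr rfl fun j _ => ?_
  rw [E2_pow, PowerSeries.smul_eq_C_mul]

/-- the residue of a polynomial over `(z-1)^{n+1}` -/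
theorem res_poly (p : Polynomial ℂ) (n : ℕ) (h : p.natDegree ≤ n + 1) :
    coeff n (ev p * zi ^ (n + 1)) = (-1) ^ n * p.coeff 0 + p.coeff (n + 1) := by
  rw [ev_sum p (n + 2) (by omega), sum_mul, map_sum]
  have h1 : ∀ j ∈ range (n + 2), coeff n (PowerSeries.C (p.coeff j) * E (2 * (j : ℤ)) * zi ^ (n + 1)) =
      p.coeff j * rz n j := by
    intro j _
    rw [mul_assoc, PowerSeries.coeff_C_mul]
    rfl
  rw [sum_congr rfl h1, sum_range_succ, rz_top, sum_range_succ', rz_bot]
  have h2 : ∑ j ∈ range n, p.coeff (j + 1) * rz n (j + 1) = 0 := by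
    apply sum_eq_zero
    intro j hj
    rw [mem_range] at hj
    rw [rz_mid n (j + 1) (by omega) (by omega), mul_zero]
  rw [h2]
  ring

end CDH
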