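import Mathlib
import Pool.Agent.Lib.MP_216314_pr_CDH.Bd

/-!
# The boundary term, second part
-/

open PowerSeries Finset

namespace CDH

/-- the polynomial `z^{(3n+1)/2} K_n` rotated by `l`, `l^3 = 1` -/
noncomputable def bp (n : ℕ) : Polynomial ℂ :=
  ∑ p ∈ antidiagonal n, Polynomial.C (al p.1 * be p.2) * (Polynomial.X ^ (3 * p.2 + 1) - Polynomial.X ^ (3 * p.1))

theorem ev_rot (n : ℕ) (c d l : ℂ) (hl : l ^ 3 = 1) (hc : c = l * d) :
    E (3 * (n : ℤ) + 1) * W c d n = PowerSeries.C d * ev ((bp n).comp (Polynomial.C l * Polynomial.X)) := by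
  have h1 : (bp n).comp (Polynomial.C l * Polynomial.X) =
      ∑ p ∈ antidiagonal n, Polynomial.C (al p.1 * be p.2) *
        (Polynomial.C l * Polynomial.X ^ (3 * p.2 + 1) - Polynomial.X ^ (3 * p.1)) := by
    unfold bp
    rw [Polynomial.sum_comp]
    refine sum_congr rfl fun p _ => ?_
    simp only [Polynomial.mul_comp, Polynomial.C_comp, Polynomial.sub_comp, Polynomial.pow_comp, Polynomial.X_comp]
    rw [mul_pow, mul_pow, ← Polynomial.C_pow, ← Polynomial.C_pow, pow_succ l, pow_mul, pow_mul, hl, one_pow, one_pow,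
      one_mul, Polynomial.C_1, one_mul]
  rw [h1, map_sum]
  unfold W U V
  rw [mul_add, mul_neg, mul_neg, ← sub_eq_add_neg, mul_sum, mul_sum, mul_sum, mul_sum, mul_sum, ← sum_sub_distrib]
  refine sum_congr rfl fun p hp => ?_
  rw [HasAntidiagonal.mem_antidiagonal] at hp
  rw [map_mul ev, map_sub ev, map_mul ev, ev_X_pow, ev_X_pow, ev_C, ev_C]
  have e1 : E (3 * (n : ℤ) + 1) * E (3 * ((p.2 : ℤ) - p.1) + 1) = E (2 * ((3 * p.2 + 1 : ℕ) : ℤ)) := by
    rw [E_mul, ← hp]; exact congrArg E (by push_cast; ring)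
  have e2 : E (3 * (n : ℤ) + 1) * E (-(3 * ((p.2 : ℤ) - p.1) + 1)) = E (2 * ((3 * p.1 : ℕ) : ℤ)) := by
    rw [E_mul, ← hp]; exact congrArg E (by push_cast; ring)
  rw [hc, map_mul (PowerSeries.C (R := ℂ)) l d]
  linear_combination (PowerSeries.C l * PowerSeries.C d * PowerSeries.C (al p.1 * be p.2)) * e1 -
    (PowerSeries.C d * PowerSeries.C (al p.1 * be p.2)) * e2

theorem E_ne (m : ℤ) : E m * E (-m) = 1 := by
  rw [E_mul, add_neg_cancel, E_zero]

/-- order of vanishing at `h = 0` controls the multiplicity of the root `1` -/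
theorem dvd_of_ev (p : Polynomial ℂ) (N : ℕ) (h : X ^ N ∣ ev p) :
    (Polynomial.X - Polynomial.C 1) ^ N ∣ p := by
  by_cases hp : p = 0
  · rw [hp]; exact dvd_zero _
  obtain ⟨q, hq, hnd⟩ := Polynomial.exists_eq_pow_rootMultiplicity_mul_and_not_dvd p hp 1
  set r := p.rootMultiplicity 1 with hr
  have h1 : ev p = X ^ r * (ze ^ r * ev q) := by
    conv_lhs => rw [hq]
    rw [map_mul, map_pow, map_sub, ev_C]
    have : ev Polynomial.X = E 2 := by unfold ev; rw [Polynomial.aeval_X]
    rw [this, map_one, ← X_mul_ze, mul_pow, mul_assoc]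
  have h2 : constantCoeff (ze ^ r * ev q) ≠ 0 := by
    rw [map_mul, map_pow, const_ze, one_pow, one_mul]
    have h3 : constantCoeff (ev q) = q.eval 1 := by
      rw [ev_sum q (q.natDegree + 1) (by omega), map_sum, Polynomial.eval_eq_sum_range]
      refine sum_congr rfl fun j _ => ?_
      rw [map_mul, const_E, one_pow]
      simp
    rw [h3]
    intro h4
    exact hnd (Polynomial.dvd_iff_isRoot.2 h4)
  have h5 : N ≤ r := by
    by_contra hlt
    push Not at hlt
    rw [h1] at h
    have h6 := (PowerSeries.X_pow_dvd_iff.1 h) r hlt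
    rw [PowerSeries.coeff_X_pow_mul', if_pos le_rfl, Nat.sub_self, coeff_zero_eq_constantCoeff_apply] at h6
    exact h2 h6
  rw [hq]
  exact dvd_mul_of_dvd_left (pow_dvd_pow _ h5) _

theorem dvd_bp (n : ℕ) : (Polynomial.X - Polynomial.C 1) ^ (2 * n + 1) ∣ bp n := by
  apply dvd_of_ev
  have h := ev_rot n 1 1 1 (by norm_num) (by norm_num)
  rw [map_one, map_one, one_mul, one_mul, Polynomial.comp_X] at h
  rw [← h]
  exact dvd_mul_of_dvd_right (X_dvd_B n) _

theorem al_zero : al 0 = 1 := by unfold al; simp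
theorem be_zero : be 0 = 1 := by unfold be; simp

theorem bp_natDegree (n : ℕ) : (bp n).natDegree ≤ 3 * n + 1 := by
  unfold bp
  apply Polynomial.natDegree_sum_le_of_forall_le
  intro p hp
  rw [HasAntidiagonal.mem_antidiagonal] at hp
  refine (Polynomial.natDegree_C_mul_le _ _).trans ?_
  refine (Polynomial.natDegree_sub_le _ _).trans ?_
  rw [Polynomial.natDegree_X_pow, Polynomial.natDegree_X_pow]
  omega

theorem bp_coeff_top (n : ℕ) : (bp n).coeff (3 * n + 1) = be n := by
  unfold bp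
  rw [Polynomial.finsetSum_coeff, Finset.sum_eq_single (0, n)]
  · rw [Polynomial.coeff_C_mul, Polynomial.coeff_sub, Polynomial.coeff_X_pow, Polynomial.coeff_X_pow, al_zero]
    simp
  · intro p hp hne
    rw [HasAntidiagonal.mem_antidiagonal] at hp
    rw [Polynomial.coeff_C_mul, Polynomial.coeff_sub, Polynomial.coeff_X_pow, Polynomial.coeff_X_pow]
    have h1 : ¬ (3 * n + 1 = 3 * p.2 + 1) := by
      intro h
      apply hne
      ext
      · simp only; omega
      · simp only; omega
    have h2 : ¬ (3 * n + 1 = 3 * p.1) := by omega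
    rw [if_neg h1, if_neg h2]
    simp
  · intro h
    exfalso
    apply h
    rw [HasAntidiagonal.mem_antidiagonal]
    simp

theorem bp_coeff_zero (n : ℕ) : (bp n).coeff 0 = -be n := by
  unfold bp
  rw [Polynomial.finsetSum_coeff, Finset.sum_eq_single (0, n)]
  · rw [Polynomial.coeff_C_mul, Polynomial.coeff_sub, Polynomial.coeff_X_pow, Polynomial.coeff_X_pow, al_zero]
    simp
  · intro p hp hne
    rw [HasAntidiagonal.mem_antidiagonal] at hp
    rw [Polynomial.coeff_C_mul, Polynomial.coeff_sub, Polynomial.coeff_X_pow, Polynomial.coeff_X_pow]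
    have h1 : ¬ (0 = 3 * p.2 + 1) := by omega
    have h2 : ¬ (0 = 3 * p.1) := by
      intro h
      apply hne
      ext
      · simp only; omega
      · simp only; omega
    rw [if_neg h1, if_neg h2]
    simp
  · intro h
    exfalso
    apply h
    rw [HasAntidiagonal.mem_antidiagonal]
    simp

/-- the cofactor `Q_n` -/
theorem exists_Q (n : ℕ) : ∃ Q : Polynomial ℂ, bp n = (Polynomial.X - Polynomial.C 1) ^ (2 * n + 1) * Q ∧
    Q.natDegree ≤ n ∧ Q.coeff 0 = be n ∧ Q.coeff n = be n := by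
  obtain ⟨Q, hQ⟩ := dvd_bp n
  have hm : ((Polynomial.X - Polynomial.C (1 : ℂ)) ^ (2 * n + 1)).Monic := (Polynomial.monic_X_sub_C 1).pow _
  have hdeg : ((Polynomial.X - Polynomial.C (1 : ℂ)) ^ (2 * n + 1)).natDegree = 2 * n + 1 := by
    rw [Polynomial.natDegree_pow, Polynomial.natDegree_X_sub_C, mul_one]
  have hQd : Q.natDegree ≤ n := by
    by_cases h0 : Q = 0
    · rw [h0, Polynomial.natDegree_zero]; exact Nat.zero_le _
    · have h1 := hm.natDegree_mul' h0
      rw [← hQ, hdeg] at h1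
      have h2 := bp_natDegree n
      omega
  refine ⟨Q, hQ, hQd, ?_, ?_⟩
  · have h1 := bp_coeff_zero n
    rw [hQ, Polynomial.mul_coeff_zero, Polynomial.coeff_zero_eq_eval_zero] at h1
    simp only [Polynomial.eval_pow, Polynomial.eval_sub, Polynomial.eval_X, Polynomial.eval_C, zero_sub] at h1
    rw [pow_succ, pow_mul] at h1
    norm_num at h1
    exact h1
  · have h1 := bp_coeff_top n
    rw [hQ, show 3 * n + 1 = (2 * n + 1) + n by ring,
      Polynomial.coeff_mul_add_eq_of_natDegree_le hdeg.le hQd] at h1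
    have h2 : ((Polynomial.X - Polynomial.C (1 : ℂ)) ^ (2 * n + 1)).coeff (2 * n + 1) = 1 := by
      have := hm.coeff_natDegree
      rwa [hdeg] at this
    rw [h2, one_mul] at h1
    exact h1

theorem th_sq : th ^ 2 = th - 1 := by
  unfold th
  rw [← Complex.exp_nat_mul]
  have h1 : ((2 : ℕ) : ℂ) * (Real.pi / 3 * Complex.I) = ((2 * Real.pi / 3 : ℝ) : ℂ) * Complex.I := by
    push_cast; ring
  have h2 : ((Real.pi : ℂ) / 3 * Complex.I) = ((Real.pi / 3 : ℝ) : ℂ) * Complex.I := by
    push_cast; ring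
  rw [h1, h2, Complex.exp_mul_I, Complex.exp_mul_I, ← Complex.ofReal_cos, ← Complex.ofReal_sin,
    ← Complex.ofReal_cos, ← Complex.ofReal_sin]
  have c1 : Real.cos (2 * Real.pi / 3) = -1 / 2 := by
    rw [show 2 * Real.pi / 3 = Real.pi - Real.pi / 3 by ring, Real.cos_pi_sub, Real.cos_pi_div_three]; ring
  have c2 : Real.sin (2 * Real.pi / 3) = Real.sqrt 3 / 2 := by
    rw [show 2 * Real.pi / 3 = Real.pi - Real.pi / 3 by ring, Real.sin_pi_sub, Real.sin_pi_div_three]
  rw [c1, c2, Real.cos_pi_div_three, Real.sin_pi_div_three]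
  push_cast
  ring

theorem th_ne : th ≠ 0 := Complex.exp_ne_zero _

theorem th_cube : th ^ 3 = -1 := by
  linear_combination (th + 1) * th_sq

theorem th_six : th ^ 6 = 1 := by
  rw [show th ^ 6 = (th ^ 3) ^ 2 by ring, th_cube]; ring

/-- value of the boundary term -/
theorem I_val (k : ℕ) : I k = -2 * be k ^ 2 := by
  obtain ⟨Q, hQ, hd, h0, ht⟩ := exists_Q k
  have hA := ev_rot k th th⁻¹ (th ^ 2) (by rw [← pow_mul]; exact th_six)
    (by rw [pow_two, mul_assoc, mul_inv_cancel₀ th_ne, mul_one])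
  have hC := ev_rot k (th ^ 2) ((th ^ 2)⁻¹) (th ^ 4) (by rw [← pow_mul, show 4 * 3 = 6 * 2 by norm_num, pow_mul, th_six]; norm_num)
    (by
      have := pow_ne_zero 2 th_ne
      field_simp)
  rw [show W th th⁻¹ k = Aw k from rfl] at hA
  rw [show W (th ^ 2) ((th ^ 2)⁻¹) k = Cw k from rfl] at hC
  set qa := Q.comp (Polynomial.C (th ^ 2) * Polynomial.X) with hqa
  set qc := Q.comp (Polynomial.C (th ^ 4) * Polynomial.X) with hqc
  have ha : (bp k).comp (Polynomial.C (th ^ 2) * Polynomial.X) =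
      (Polynomial.C (th ^ 2) * Polynomial.X - 1) ^ (2 * k + 1) * qa := by
    rw [hQ]; simp [hqa]
  have hc : (bp k).comp (Polynomial.C (th ^ 4) * Polynomial.X) =
      (Polynomial.C (th ^ 4) * Polynomial.X - 1) ^ (2 * k + 1) * qc := by
    rw [hQ]; simp [hqc]
  have hprod : (Polynomial.C (th ^ 2) * Polynomial.X - 1) * (Polynomial.C (th ^ 4) * Polynomial.X - 1) =
      (Polynomial.X ^ 2 + Polynomial.X + 1 : Polynomial ℂ) := by
    have e1 : Polynomial.C (th ^ 2) * Polynomial.C (th ^ 4) = (1 : Polynomial ℂ) := by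
      rw [← Polynomial.C_mul, ← pow_add, th_six, Polynomial.C_1]
    have e2 : Polynomial.C (th ^ 2) + Polynomial.C (th ^ 4) = (-1 : Polynomial ℂ) := by
      rw [← Polynomial.C_add, show th ^ 2 + th ^ 4 = -1 by linear_combination th_sq + th * th_cube, Polynomial.C_neg,
        Polynomial.C_1]
    linear_combination (Polynomial.X ^ 2) * e1 - Polynomial.X * e2
  set t := ev (Polynomial.X ^ 2 + Polynomial.X + 1) with htdef
  have ht1 : t * di = zi * E 3 := by
    have h1 : dl * E 3 = (E 2 - 1) * t := by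
      have : (E 2 - 1) * t = E 2 ^ 3 - 1 := by
        rw [htdef]
        unfold ev
        simp only [map_add, map_pow, Polynomial.aeval_X, map_one]
        ring
      rw [this, E2_pow]
      unfold dl
      rw [sub_mul, E_mul, E_mul]
      norm_num [E_zero]
    have h2 : X * (dl1 * E 3) = X * (ze * t) := by
      rw [← mul_assoc, ← mul_assoc, X_mul_dl1, X_mul_ze, h1]
    have h3 : dl1 * E 3 = ze * t := mul_left_cancel₀ PowerSeries.X_ne_zero h2
    linear_combination (-(di * zi)) * h3 + (E 3 * zi) * dl1_mul_di - (t * di) * ze_mul_zi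
  have hB : D (Bw 0) = E 1 + E (-1) := by
    unfold Bw W U V
    simp only [HasAntidiagonal.antidiagonal]
    simp [al_zero, be_zero]
    rw [D_add, D_neg, D_E, D_E]
    simp
  have hth : PowerSeries.C th⁻¹ * PowerSeries.C ((th ^ 2)⁻¹) = (-1 : PowerSeries ℂ) := by
    rw [← map_mul, ← mul_inv, ← pow_succ', th_cube]
    simp
  have hE3 : E 3 ^ (2 * k + 1) = E (6 * (k : ℤ) + 3) := by
    have : ∀ n : ℕ, E 3 ^ n = E (3 * (n : ℤ)) := by
      intro n
      induction n with
      | zero => rw [pow_zero, Nat.cast_zero, mul_zero, E_zero]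
      | succ n ih => rw [pow_succ, ih, E_mul]; exact congrArg E (by push_cast; ring)
    rw [this]; exact congrArg E (by push_cast; ring)
  have key : Aw k * Cw k * D (Bw 0) * di ^ (2 * k + 1) =
      -(ev ((Polynomial.X + 1) * (qa * qc)) * zi ^ (2 * k + 1)) := by
    have k1 : (E (3 * (k : ℤ) + 1) * Aw k) * (E (3 * (k : ℤ) + 1) * Cw k) =
        -(t ^ (2 * k + 1) * ev (qa * qc)) := by
      rw [hA, hC, ha, hc, map_mul ev, map_mul ev, htdef, ← hprod, map_mul ev, map_pow ev, map_pow ev, map_mul ev,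
        mul_pow]
      linear_combination (ev (Polynomial.C (th ^ 2) * Polynomial.X - 1) ^ (2 * k + 1) * ev qa *
        (ev (Polynomial.C (th ^ 4) * Polynomial.X - 1) ^ (2 * k + 1) * ev qc)) * hth
    have k2 : E 1 * D (Bw 0) = ev (Polynomial.X + 1) := by
      rw [hB, mul_add, E_mul, E_mul]
      unfold ev
      simp only [map_add, Polynomial.aeval_X, map_one]
      norm_num [E_zero]
    have k3 : t ^ (2 * k + 1) * di ^ (2 * k + 1) = zi ^ (2 * k + 1) * E (6 * (k : ℤ) + 3) := by
      rw [← mul_pow, ht1, mul_pow, hE3]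
    have k4 : E (3 * (k : ℤ) + 1) * E (3 * (k : ℤ) + 1) * E 1 = E (6 * (k : ℤ) + 3) := by
      rw [E_mul, E_mul]; exact congrArg E (by ring)
    have k5 : E (6 * (k : ℤ) + 3) ≠ 0 := by
      intro h
      have := E_ne (6 * (k : ℤ) + 3)
      rw [h, zero_mul] at this
      exact zero_ne_one this
    apply mul_left_cancel₀ k5
    rw [map_mul]
    linear_combination (-(Aw k * Cw k * D (Bw 0) * di ^ (2 * k + 1))) * k4 +
      (E 1 * D (Bw 0) * di ^ (2 * k + 1)) * k1 - (t ^ (2 * k + 1) * ev (qa * qc) * di ^ (2 * k + 1)) * k2 -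
      (ev (qa * qc) * ev (Polynomial.X + 1)) * k3
  have hqad : qa.natDegree ≤ k := by
    rw [hqa]
    refine (Polynomial.natDegree_comp_le).trans ?_
    have : (Polynomial.C (th ^ 2) * Polynomial.X : Polynomial ℂ).natDegree ≤ 1 := by
      refine (Polynomial.natDegree_C_mul_le _ _).trans ?_
      exact Polynomial.natDegree_X_le
    calc Q.natDegree * _ ≤ k * 1 := Nat.mul_le_mul hd this
      _ = k := mul_one k
  have hqcd : qc.natDegree ≤ k := by
    rw [hqc]
    refine (Polynomial.natDegree_comp_le).trans ?_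
    have : (Polynomial.C (th ^ 4) * Polynomial.X : Polynomial ℂ).natDegree ≤ 1 := by
      refine (Polynomial.natDegree_C_mul_le _ _).trans ?_
      exact Polynomial.natDegree_X_le
    calc Q.natDegree * _ ≤ k * 1 := Nat.mul_le_mul hd this
      _ = k := mul_one k
  have hx1 : (Polynomial.X + 1 : Polynomial ℂ).natDegree ≤ 1 := by
    have := Polynomial.natDegree_X_add_C (1 : ℂ)
    rw [Polynomial.C_1] at this
    exact this.le
  have hqq : (qa * qc).natDegree ≤ 2 * k := by
    refine Polynomial.natDegree_mul_le.trans ?_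
    omega
  have hNd : ((Polynomial.X + 1) * (qa * qc)).natDegree ≤ 2 * k + 1 := by
    refine Polynomial.natDegree_mul_le.trans ?_
    omega
  unfold I rs
  rw [key, map_neg, res_poly _ (2 * k) hNd]
  have cq : ∀ l : ℂ, ∀ n : ℕ, (Q.comp (Polynomial.C l * Polynomial.X)).coeff n = Q.coeff n * l ^ n := by
    intro l n
    rw [Polynomial.comp_C_mul_X_coeff]
  have c0 : ((Polynomial.X + 1) * (qa * qc) : Polynomial ℂ).coeff 0 = be k ^ 2 := by
    rw [Polynomial.mul_coeff_zero, Polynomial.mul_coeff_zero, hqa, hqc, cq, cq, h0]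
    simp
    ring
  have c1 : ((Polynomial.X + 1) * (qa * qc) : Polynomial ℂ).coeff (2 * k + 1) = be k ^ 2 := by
    rw [show 2 * k + 1 = 1 + (k + k) by ring, Polynomial.coeff_mul_add_eq_of_natDegree_le hx1 (by omega),
      Polynomial.coeff_mul_add_eq_of_natDegree_le hqad hqcd, hqa, hqc, cq, cq, ht]
    have : (Polynomial.X + 1 : Polynomial ℂ).coeff 1 = 1 := by
      rw [Polynomial.coeff_add, Polynomial.coeff_X_one, Polynomial.coeff_one]
      simp
    rw [this]
    have e : (th ^ 2) ^ k * (th ^ 4) ^ k = 1 := by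
      rw [← mul_pow, ← pow_add, th_six, one_pow]
    linear_combination (be k ^ 2) * e
  rw [c0, c1, pow_mul]
  norm_num
  ring

end CDH
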