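import Mathlib
import Pool.Agent.Lib.MP_216314_pr_CDH.Bd2

/-!
# The beta-binomial distribution function
-/

open Finset

namespace CDH

/-- `v i = (1/3)_i / i!` -/
noncomputable def vv (i : ℕ) : ℝ := ∏ j ∈ range i, ((1 / 3 + (j : ℝ)) / ((j : ℝ) + 1))

/-- `V i = (2/3)_i / i!` -/
noncomputable def VV (i : ℕ) : ℝ := ∏ j ∈ range i, ((2 / 3 + (j : ℝ)) / ((j : ℝ) + 1))

/-- partial convolution sums -/
noncomputable def GG (L K : ℕ) : ℝ := ∑ i ∈ range K, vv i * vv (L - i)

/-- the distribution function of the beta-binomial law -/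
noncomputable def FF (k m : ℕ) : ℝ := GG (k + m + 1) (k + 1) / VV (k + m + 1)

theorem vv_zero : vv 0 = 1 := by unfold vv; simp
theorem VV_zero : VV 0 = 1 := by unfold VV; simp

theorem vv_succ (i : ℕ) : ((i : ℝ) + 1) * vv (i + 1) = (1 / 3 + (i : ℝ)) * vv i := by
  unfold vv
  rw [prod_range_succ]
  have : ((i : ℝ) + 1) ≠ 0 := by positivity
  field_simp

theorem VV_succ (i : ℕ) : ((i : ℝ) + 1) * VV (i + 1) = (2 / 3 + (i : ℝ)) * VV i := by
  unfold VV
  rw [prod_range_succ]
  have : ((i : ℝ) + 1) ≠ 0 := by positivity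
  field_simp

theorem VV_pos (i : ℕ) : 0 < VV i := by
  unfold VV
  apply prod_pos
  intro j _
  positivity

theorem vv_pos (i : ℕ) : 0 < vv i := by
  unfold vv
  apply prod_pos
  intro j _
  positivity

theorem GG_step (m K : ℕ) : ((K : ℝ) + m + 1) * GG (K + m + 1) (K + 1) =
    ((K : ℝ) + m + 2 / 3) * GG (K + m) K + ((m : ℝ) + 1 / 3) * (vv K * vv m) := by
  induction K generalizing m with
  | zero =>
    unfold GG
    rw [sum_range_succ, sum_range_zero]
    simp only [vv_zero, Nat.sub_zero, zero_add, Nat.cast_zero]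
    have := vv_succ m
    linear_combination this
  | succ K ih =>
    have h := ih (m + 1)
    have e1 : K + (m + 1) + 1 = K + 1 + m + 1 := by ring
    have e2 : K + (m + 1) = K + 1 + m := by ring
    rw [e1, e2] at h
    have g1 : GG (K + 1 + m + 1) (K + 1 + 1) = GG (K + 1 + m + 1) (K + 1) + vv (K + 1) * vv (m + 1) := by
      unfold GG
      rw [sum_range_succ _ (K + 1), show K + 1 + m + 1 - (K + 1) = m + 1 by omega]
    have g2 : GG (K + 1 + m) (K + 1) = GG (K + 1 + m) K + vv K * vv (m + 1) := by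
      unfold GG
      rw [sum_range_succ _ K, show K + 1 + m - K = m + 1 by omega]
    have h1 := vv_succ m
    have h2 := vv_succ K
    rw [g1, g2]
    push_cast at h ⊢
    linear_combination h + vv (K + 1) * h1 + vv (m + 1) * h2

theorem GG_full (L : ℕ) : GG L (L + 1) = VV L := by
  induction L with
  | zero =>
    unfold GG
    rw [sum_range_succ, sum_range_zero, VV_zero]
    simp [vv_zero]
  | succ L ih =>
    have h := GG_step 0 L
    have g1 : GG (L + 0 + 1) (L + 1 + 1) = GG (L + 0 + 1) (L + 1) + vv (L + 1) := by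
      unfold GG
      rw [sum_range_succ _ (L + 1), show L + 0 + 1 - (L + 1) = 0 by omega, vv_zero, mul_one]
    have g2 : GG (L + 0) (L + 1) = GG (L + 0) L + vv L := by
      unfold GG
      rw [sum_range_succ _ L, show L + 0 - L = 0 by omega, vv_zero, mul_one]
    have h1 := VV_succ L
    have h2 := vv_succ L
    rw [vv_zero] at h
    rw [show L + 0 = L from rfl] at g1 g2 h
    have hne : ((L : ℝ) + 1) ≠ 0 := by positivity
    apply mul_left_cancel₀ hne
    rw [h1, g1, ← ih, g2]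
    push_cast at h
    linear_combination h + h2

theorem FF_step (k m : ℕ) : (3 * ((k : ℝ) + m) + 2) * FF k m =
    (3 * ((k : ℝ) + m) + 2) * (GG (k + m) k / VV (k + m)) + (3 * (m : ℝ) + 1) * (vv k * vv m / VV (k + m)) := by
  have h := GG_step m k
  have h1 := VV_succ (k + m)
  have p1 := VV_pos (k + m)
  have p2 := VV_pos (k + m + 1)
  unfold FF
  rw [mul_div_assoc', mul_div_assoc', mul_div_assoc', ← add_div, div_eq_div_iff p2.ne' p1.ne']
  push_cast at h1
  have hne : ((k : ℝ) + m + 1) ≠ 0 := by positivity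
  apply mul_left_cancel₀ hne
  linear_combination (3 * (((k : ℝ) + m) + 2 / 3) * VV (k + m)) * h -
    ((3 * ((k : ℝ) + m) + 2) * GG (k + m) k + (3 * (m : ℝ) + 1) * (vv k * vv m)) * h1

theorem FF_rec (k m : ℕ) : (3 * ((k : ℝ) + m) + 8) * FF (k + 1) (m + 1) =
    (3 * (k : ℝ) + 4) * FF k (m + 1) + (3 * (m : ℝ) + 4) * FF (k + 1) m := by
  have h := FF_step (k + 1) (m + 1)
  have e1 : FF k (m + 1) = GG (k + 1 + (m + 1)) (k + 1) / VV (k + 1 + (m + 1)) := by
    unfold FF
    rw [show k + (m + 1) + 1 = k + 1 + (m + 1) by ring]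
  have e2 : FF (k + 1) m = GG (k + 1 + (m + 1)) (k + 1) / VV (k + 1 + (m + 1)) +
      vv (k + 1) * vv (m + 1) / VV (k + 1 + (m + 1)) := by
    unfold FF
    rw [show k + 1 + m + 1 = k + 1 + (m + 1) by ring, ← add_div]
    congr 1
    unfold GG
    rw [sum_range_succ _ (k + 1), show k + 1 + (m + 1) - (k + 1) = m + 1 by omega]
  rw [e1, e2]
  push_cast at h
  linear_combination h

theorem FF_left (m : ℕ) : (3 * (m : ℝ) + 5) * FF 0 (m + 1) = (3 * (m : ℝ) + 4) * FF 0 m := by
  have h := FF_step 0 (m + 1)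
  have e2 : FF 0 m = vv 0 * vv (m + 1) / VV (0 + (m + 1)) := by
    unfold FF GG
    rw [show 0 + m + 1 = 0 + (m + 1) by ring, zero_add 1, sum_range_one, show 0 + (m + 1) - 0 = m + 1 by omega]
  have e1 : GG (0 + (m + 1)) 0 = 0 := by unfold GG; simp
  rw [e1, zero_div, mul_zero, zero_add, ← e2] at h
  push_cast at h
  linear_combination h

theorem FF_right (k : ℕ) : (3 * (k : ℝ) + 5) * FF (k + 1) 0 = (3 * (k : ℝ) + 4) * FF k 0 + 1 := by
  have h := FF_step (k + 1) 0
  have e1 : FF k 0 = GG (k + 1 + 0) (k + 1) / VV (k + 1 + 0) := rfl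
  have e2 : GG (k + 1 + 0) (k + 1) + vv (k + 1) * vv 0 = VV (k + 1 + 0) := by
    rw [← GG_full (k + 1 + 0)]
    unfold GG
    rw [sum_range_succ _ (k + 1), show k + 1 + 0 - (k + 1) = 0 by omega]
  have p := VV_pos (k + 1 + 0)
  have e3 : vv (k + 1) * vv 0 / VV (k + 1 + 0) = 1 - FF k 0 := by
    rw [e1, eq_sub_iff_add_eq, ← add_div, add_comm, e2, div_self p.ne']
  rw [← e1, e3] at h
  push_cast at h
  linear_combination h

theorem FF_zero : FF 0 0 = 1 / 2 := by
  have h := FF_step 0 0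
  unfold GG at h
  simp [vv_zero, VV_zero] at h
  linear_combination (1 / 2) * h

theorem J_val_aux (n : ℕ) : ∀ k m : ℕ, k + m = n →
    J k m = -2 * be k * be m * be (k + m + 1) * (FF k m : ℂ) := by
  induction n using Nat.strong_induction_on with
  | _ n ih =>
  intro k m hn
  rcases k with _ | k
  · rcases m with _ | m
    · have h := J_zero
      rw [I_val, be_zero] at h
      rw [be_zero, FF_zero, show 0 + 0 + 1 = 1 from rfl]
      have hb := be_succ 0
      rw [be_zero] at hb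
      push_cast at hb ⊢
      norm_num at hb h ⊢
      linear_combination (1 / 24) * h + (1 / 12) * hb
    · have h := J_left m
      have hi := ih (0 + m) (by omega) 0 m rfl
      rw [hi] at h
      have hm := be_succ m
      have hL := be_succ (m + 1)
      have hF : (3 * (m : ℂ) + 5) * (FF 0 (m + 1) : ℂ) = (3 * (m : ℂ) + 4) * (FF 0 m : ℂ) := by
        exact_mod_cast congrArg (fun x : ℝ => (x : ℂ)) (FF_left m)
      have n1 := ne3 m
      have n2 : (3 * (m : ℂ) + 5) ≠ 0 := by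
        have : (3 * (m : ℂ) + 5) = ((3 * m + 5 : ℕ) : ℂ) := by push_cast; ring
        rw [this, Nat.cast_ne_zero]; omega
      have n3 : 3 * ((m : ℂ) + 2) * (3 * (m : ℂ) + 7) ≠ 0 := by
        have : 3 * ((m : ℂ) + 2) * (3 * (m : ℂ) + 7) = ((3 * (m + 2) * (3 * m + 7) : ℕ) : ℂ) := by push_cast; ring
        rw [this, Nat.cast_ne_zero]; positivity
      have key : (3 * ((m : ℂ) + 2) * (3 * (m : ℂ) + 7)) * ((3 * (m : ℂ) + 5) * J 0 (m + 1)) =
          (3 * ((m : ℂ) + 2) * (3 * (m : ℂ) + 7)) *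
            ((3 * (m : ℂ) + 5) * (-2 * be 0 * be (m + 1) * be (0 + (m + 1) + 1) * (FF 0 (m + 1) : ℂ))) := by
        have h' : 3 * ((m : ℂ) + 2) * (3 * (m : ℂ) + 5) * (3 * (m : ℂ) + 7) * J 0 (m + 1) =
            -2 * be 0 * ((3 * (m : ℂ) + 4) * be (m + 1)) * be (0 + m + 1) * (FF 0 m : ℂ) := by
          rw [h, ← hm]
          field_simp
          ring
        rw [show 0 + m + 1 = m + 1 by ring] at h'
        rw [show 0 + (m + 1) + 1 = m + 1 + 1 by ring]
        push_cast at hL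
        linear_combination h' + (2 * be 0 * (3 * (m : ℂ) + 4) * be (m + 1) * (FF 0 m : ℂ)) * hL +
          (2 * be 0 * be (m + 1) * be (m + 1 + 1) * (3 * ((m : ℂ) + 2) * (3 * (m : ℂ) + 7))) * hF
      exact mul_left_cancel₀ n2 (mul_left_cancel₀ n3 key)
  · rcases m with _ | m
    · have h := J_right k
      have hi := ih (k + 0) (by omega) k 0 rfl
      rw [hi, I_val] at h
      have hk := be_succ k
      have hL := be_succ (k + 1)
      have hF : (3 * (k : ℂ) + 5) * (FF (k + 1) 0 : ℂ) = (3 * (k : ℂ) + 4) * (FF k 0 : ℂ) + 1 := by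
        exact_mod_cast congrArg (fun x : ℝ => (x : ℂ)) (FF_right k)
      have n1 := ne3 k
      have n2 : (3 * (k : ℂ) + 5) ≠ 0 := by
        have : (3 * (k : ℂ) + 5) = ((3 * k + 5 : ℕ) : ℂ) := by push_cast; ring
        rw [this, Nat.cast_ne_zero]; omega
      have n3 : 3 * ((k : ℂ) + 2) * (3 * (k : ℂ) + 7) ≠ 0 := by
        have : 3 * ((k : ℂ) + 2) * (3 * (k : ℂ) + 7) = ((3 * (k + 2) * (3 * k + 7) : ℕ) : ℂ) := by push_cast; ring
        rw [this, Nat.cast_ne_zero]; positivity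
      have key : (3 * ((k : ℂ) + 2) * (3 * (k : ℂ) + 7)) * ((3 * (k : ℂ) + 5) * J (k + 1) 0) =
          (3 * ((k : ℂ) + 2) * (3 * (k : ℂ) + 7)) *
            ((3 * (k : ℂ) + 5) * (-2 * be (k + 1) * be 0 * be (k + 1 + 0 + 1) * (FF (k + 1) 0 : ℂ))) := by
        have h' : 3 * ((k : ℂ) + 2) * (3 * (k : ℂ) + 5) * (3 * (k : ℂ) + 7) * J (k + 1) 0 =
            -2 * ((3 * (k : ℂ) + 4) * be (k + 1)) * be 0 * be (k + 0 + 1) * (FF k 0 : ℂ) + -2 * be (k + 1) ^ 2 := by
          rw [h, ← hk]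
          field_simp
          ring
        rw [show k + 0 + 1 = k + 1 by ring] at h'
        rw [show k + 1 + 0 + 1 = k + 1 + 1 by ring]
        rw [be_zero] at h' ⊢
        push_cast at hL
        linear_combination h' + (2 * (3 * (k : ℂ) + 4) * be (k + 1) * (FF k 0 : ℂ) + 2 * be (k + 1)) * hL +
          (2 * be (k + 1) * be (k + 1 + 1) * (3 * ((k : ℂ) + 2) * (3 * (k : ℂ) + 7))) * hF
      exact mul_left_cancel₀ n2 (mul_left_cancel₀ n3 key)
    · have h := J_rec k m
      have hi1 := ih (k + (m + 1)) (by omega) k (m + 1) rfl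
      have hi2 := ih (k + 1 + m) (by omega) (k + 1) m rfl
      rw [hi1, hi2] at h
      have hk := be_succ k
      have hm := be_succ m
      have hL := be_succ (k + m + 2)
      have hF : (3 * ((k : ℂ) + m) + 8) * (FF (k + 1) (m + 1) : ℂ) =
          (3 * (k : ℂ) + 4) * (FF k (m + 1) : ℂ) + (3 * (m : ℂ) + 4) * (FF (k + 1) m : ℂ) := by
        exact_mod_cast congrArg (fun x : ℝ => (x : ℂ)) (FF_rec k m)
      have n1 := ne3 k
      have n1' := ne3 m
      have n2 : (3 * ((k : ℂ) + m) + 8) ≠ 0 := by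
        have : (3 * ((k : ℂ) + m) + 8) = ((3 * (k + m) + 8 : ℕ) : ℂ) := by push_cast; ring
        rw [this, Nat.cast_ne_zero]; omega
      have n3 : 3 * ((k : ℂ) + m + 3) * (3 * ((k : ℂ) + m) + 10) ≠ 0 := by
        have : 3 * ((k : ℂ) + m + 3) * (3 * ((k : ℂ) + m) + 10) = ((3 * (k + m + 3) * (3 * (k + m) + 10) : ℕ) : ℂ) := by
          push_cast; ring
        rw [this, Nat.cast_ne_zero]; positivity
      have key : (3 * ((k : ℂ) + m + 3) * (3 * ((k : ℂ) + m) + 10)) * ((3 * ((k : ℂ) + m) + 8) * J (k + 1) (m + 1)) =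
          (3 * ((k : ℂ) + m + 3) * (3 * ((k : ℂ) + m) + 10)) *
            ((3 * ((k : ℂ) + m) + 8) * (-2 * be (k + 1) * be (m + 1) * be (k + 1 + (m + 1) + 1) * (FF (k + 1) (m + 1) : ℂ))) := by
        have h' : 3 * ((k : ℂ) + m + 3) * (3 * ((k : ℂ) + m) + 8) * (3 * ((k : ℂ) + m) + 10) * J (k + 1) (m + 1) =
            -2 * ((3 * (k : ℂ) + 4) * be (k + 1)) * be (m + 1) * be (k + (m + 1) + 1) * (FF k (m + 1) : ℂ) +
            -2 * be (k + 1) * ((3 * (m : ℂ) + 4) * be (m + 1)) * be (k + 1 + m + 1) * (FF (k + 1) m : ℂ) := by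
          rw [h, ← hk, ← hm]
          field_simp
          ring
        rw [show k + (m + 1) + 1 = k + m + 2 by ring, show k + 1 + m + 1 = k + m + 2 by ring] at h'
        rw [show k + 1 + (m + 1) + 1 = k + m + 2 + 1 by ring]
        push_cast at hL
        linear_combination h' + (2 * (3 * (k : ℂ) + 4) * be (k + 1) * be (m + 1) * (FF k (m + 1) : ℂ) +
          2 * be (k + 1) * (3 * (m : ℂ) + 4) * be (m + 1) * (FF (k + 1) m : ℂ)) * hL +
          (2 * be (k + 1) * be (m + 1) * be (k + m + 2 + 1) * (3 * ((k : ℂ) + m + 3) * (3 * ((k : ℂ) + m) + 10))) * hF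
      exact mul_left_cancel₀ n2 (mul_left_cancel₀ n3 key)

/-- **The homogeneous evaluation**: `J(k,m) = -2 F(k,m) / (ν_k ν_m ν_L)`, `1/ν_n = be n`. -/
theorem J_val (k m : ℕ) : J k m = -2 * be k * be m * be (k + m + 1) * (FF k m : ℂ) :=
  J_val_aux (k + m) k m rfl

end CDH
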